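import Pool.Agent.Helper20.RG.St2

/-!
# Project RG (MP_cb927e_an), module CLS: one threshold
-/

set_option autoImplicit false

open MeasureTheory Set Filter Topology
open scoped ENNReal RealInnerProductSpace

namespace Pool.Agent.Helper94.RG

open Pool.Agent.Helper20.RG
open Pool.Agent.Helper68.LM (Pl BB Bd Av HL ft fm DQ)

/-- exponential growth beats polynomials -/
private theorem cls_growth (r B : ℝ) (hr : 0 < r) : ∃ u₀ : ℕ, ∀ u : ℕ, u₀ ≤ u →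
    B * ((u : ℝ) ^ 6 * (3 * u + 2)) ≤ (2 : ℝ) ^ (r * u) := by
  have h2r : 1 < (2 : ℝ) ^ r := Real.one_lt_rpow (by norm_num) hr
  have ht := tendsto_pow_const_div_const_pow_of_one_lt 7 h2r
  have hc : (0 : ℝ) < 1 / (5 * (|B| + 1)) := by positivity
  obtain ⟨u1, hu1⟩ := (ht.eventually (gt_mem_nhds hc)).exists_forall_of_atTop
  refine ⟨u1 + 1, fun u hu => ?_⟩
  have h1 := hu1 u (by omega)
  have hp : (0 : ℝ) < ((2 : ℝ) ^ r) ^ u := by positivity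
  rw [div_lt_div_iff₀ hp (by positivity)] at h1
  have hu' : (1 : ℝ) ≤ u := by
    have : 1 ≤ u := by omega
    exact_mod_cast this
  have h2 : (2 : ℝ) ^ (r * u) = ((2 : ℝ) ^ r) ^ u := by
    rw [Real.rpow_mul (by norm_num), Real.rpow_natCast]
  rw [h2]
  have h3 : (u : ℝ) ^ 6 * (3 * u + 2) ≤ 5 * (u : ℝ) ^ 7 := by
    have h6 : (0 : ℝ) ≤ (u : ℝ) ^ 6 := by positivity
    nlinarith [mul_le_mul_of_nonneg_left hu' h6]
  have h4 : B * ((u : ℝ) ^ 6 * (3 * u + 2)) ≤ (|B| + 1) * ((u : ℝ) ^ 6 * (3 * u + 2)) := by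
    apply mul_le_mul_of_nonneg_right _ (by positivity)
    linarith [le_abs_self B]
  have h5 : (|B| + 1) * ((u : ℝ) ^ 6 * (3 * u + 2)) ≤ (|B| + 1) * (5 * (u : ℝ) ^ 7) :=
    mul_le_mul_of_nonneg_left h3 (by positivity)
  nlinarith

private theorem cls_lin (e : ℝ) (he : 0 < e) : ∃ C : ℝ, 0 < C ∧ ∀ u : ℕ,
    (3 * (u : ℝ) + 2) * (2 : ℝ) ^ (-(e * u)) ≤ C * (2 : ℝ) ^ (-(e / 2 * u)) := by
  have hl : 0 < Real.log 2 := Real.log_pos (by norm_num)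
  refine ⟨2 + 6 / (e * Real.log 2), by positivity, fun u => ?_⟩
  have h1 : (2 : ℝ) ^ (-(e / 2 * u)) = (2 : ℝ) ^ (e / 2 * u) * (2 : ℝ) ^ (-(e * u)) := by
    rw [← Real.rpow_add (by norm_num)]
    congr 1
    ring
  rw [h1, ← mul_assoc]
  apply mul_le_mul_of_nonneg_right _ (by positivity)
  have h2 : 1 + Real.log 2 * (e / 2 * u) ≤ (2 : ℝ) ^ (e / 2 * u) := by
    rw [Real.rpow_def_of_pos (by norm_num)]
    linarith [Real.add_one_le_exp (Real.log 2 * (e / 2 * u))]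
  have h3 : 3 * (u : ℝ) + 2 ≤ (2 + 6 / (e * Real.log 2)) * (1 + Real.log 2 * (e / 2 * u)) := by
    have h4 : (2 + 6 / (e * Real.log 2)) * (1 + Real.log 2 * (e / 2 * u)) =
        2 + 6 / (e * Real.log 2) + Real.log 2 * e * u + 3 * u := by
      field_simp
      ring
    rw [h4]
    have h5 : 0 ≤ 6 / (e * Real.log 2) := by positivity
    have h6 : 0 ≤ Real.log 2 * e * u := by positivity
    linarith
  exact h3.trans (mul_le_mul_of_nonneg_left h2 (by positivity))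

private theorem cls_tsum_finset {n : ℕ} (f : ℕ → ℤ → ℝ≥0∞) :
    ∑' k : ℤ, ∑ i ∈ Finset.range n, f i k = ∑ i ∈ Finset.range n, ∑' k : ℤ, f i k :=
  Summable.tsum_finsetSum (fun _ _ => ENNReal.summable)

/-- the number of slopes for the last block -/
private theorem cls_ns (u b : ℕ) (A σ : ℝ) (hu : 1 ≤ u) (hA : 0 ≤ A) (hσ : 2 < σ) (hσ3 : σ < 3)
    (hb : b = 3 * u + 1) : ns u b A σ ≤ 1 + A := by
  unfold ns
  have hu' : (1 : ℝ) ≤ u := by exact_mod_cast hu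
  have hs : 0 < σ := by linarith
  have h1 : (2 : ℝ) ^ (3 * u) ≤ (2 : ℝ) ^ (b + 1) * u := by
    have : (2 : ℝ) ^ (3 * u) ≤ (2 : ℝ) ^ (b + 1) :=
      pow_le_pow_right₀ (by norm_num) (by omega)
    calc (2 : ℝ) ^ (3 * u) = (2 : ℝ) ^ (3 * u) * 1 := by ring
      _ ≤ (2 : ℝ) ^ (b + 1) * u := mul_le_mul this hu' (by norm_num) (by positivity)
  have h2 : ((2 : ℝ) ^ (b + 1) * u) ^ (-(1 / σ)) ≤ ((2 : ℝ) ^ (3 * u)) ^ (-(1 / σ)) := by
    apply Real.rpow_le_rpow_of_nonpos (by positivity) h1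
    have : 0 < 1 / σ := by positivity
    linarith
  have h3 : ((2 : ℝ) ^ (3 * u)) ^ (-(1 / σ)) ≤ (2 : ℝ) ^ (-(u : ℝ)) := by
    rw [← Real.rpow_natCast, ← Real.rpow_mul (by norm_num)]
    apply Real.rpow_le_rpow_of_exponent_le (by norm_num)
    push_cast
    have h4 : 1 / 3 ≤ 1 / σ := one_div_le_one_div_of_le hs hσ3.le
    nlinarith
  have h5 : (2 : ℝ) ^ u * (A * ((2 : ℝ) ^ (b + 1) * u) ^ (-(1 / σ))) ≤
      (2 : ℝ) ^ u * (A * (2 : ℝ) ^ (-(u : ℝ))) := by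
    apply mul_le_mul_of_nonneg_left _ (by positivity)
    exact mul_le_mul_of_nonneg_left (h2.trans h3) hA
  have h6 : (2 : ℝ) ^ u * (A * (2 : ℝ) ^ (-(u : ℝ))) = A := by
    rw [Real.rpow_neg (by norm_num), Real.rpow_natCast]
    field_simp
  linarith

/-- pigeonhole for the classes -/
private theorem cls_pigeon (hPS : StPS) (Zf : ℕ → ℤ → ℕ → Pl → ℝ) (u : ℕ) (η m : ℝ) (k : ℤ) (x : Pl)
    (hu : 1 ≤ u) (hη : 0 < η)
    (hm : m ≤ ({j : ℕ | j < 2 ^ u ∧ η ≤ |Zf (om u 0 0) k j x|}.ncard : ℝ)) :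
    ∃ b ∈ Finset.range (3 * u + 2), m / (3 * u + 2) ≤ ((Pe Zf u η b k x).ncard : ℝ) := by
  by_contra hcon
  push Not at hcon
  have h1 := hPS Zf u η k x hu hη
  have h2 : ({j : ℕ | j < 2 ^ u ∧ η ≤ |Zf (om u 0 0) k j x|}.ncard : ℝ) ≤
      ∑ b ∈ Finset.range (3 * u + 2), ((Pe Zf u η b k x).ncard : ℝ) := by
    exact_mod_cast h1
  have h3 : ∑ b ∈ Finset.range (3 * u + 2), ((Pe Zf u η b k x).ncard : ℝ) <
      ∑ _b ∈ Finset.range (3 * u + 2), m / (3 * u + 2) := by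
    apply Finset.sum_lt_sum_of_nonempty
    · exact ⟨0, by simp⟩
    · exact hcon
  rw [Finset.sum_const, Finset.card_range, nsmul_eq_mul] at h3
  push_cast at h3
  have h4 : (3 * (u : ℝ) + 2) * (m / (3 * u + 2)) = m := by
    field_simp
  rw [h4] at h3
  linarith

/-- one class -/
private theorem cls_one (hER : StER) (CW : ℝ) (hCW : 0 < CW)
    (hW : ∀ (u : ℕ) (Cf : ℝ) (K : ℕ) (A σ : ℝ) (s : ℕ → ℝ) (g : Pl → ℝ)
    (Zf : ℕ → ℤ → ℕ → Pl → ℝ) (η Λ m₁ : ℝ) (b : ℕ) (k : ℤ) (G : Set Pl),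
    Fam u Cf K A σ s g Zf → 1 ≤ Cf → 0 ≤ A → Slo u A σ s → BB g → (∀ x, 0 ≤ g x ∧ g x ≤ 1) →
    (∀ x ∈ G, Loc Cf Λ g x) → 2 ≤ u → (2 : ℝ) ^ (-(3 * (u : ℤ))) ≤ η → η ≤ 1 → 0 < Λ → 1 ≤ b →
    200 * ns u b A σ ≤ m₁ → 1000 ≤ m₁ → 200 * (64 * (16 * Cf * Λ / η ^ 2)) ≤ m₁ →
      volume {x | x ∈ G ∧ m₁ ≤ ((Pe Zf u η b k x).ncard : ℝ)} ≤
        ENNReal.ofReal ((1 / 2) ^ (16 * u) / (16 * Cf * Λ / η ^ 2)) *
          (∑ j ∈ Finset.range (2 ^ u), volume (Ew Zf u η b 0 (1 / 4) k j)) +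
        ∑ i ∈ Finset.range (16 * u),
          ENNReal.ofReal (CW * ns u b A σ * (64 * (16 * Cf * Λ / η ^ 2)) / m₁ ^ 3) *
            ∑ j ∈ Finset.range (2 ^ u), volume (Ew Zf u η b i (1 / 4) k j))
    (Cf A σ q C3 e3 C4 e4 : ℝ) (hCf : 1 ≤ Cf) (hA : 0 ≤ A)
    (hC3 : 0 < C3) (hC4 : 0 < C4)
    (u K : ℕ) (s : ℕ → ℝ) (g : Pl → ℝ) (Zf : ℕ → ℤ → ℕ → Pl → ℝ) (Λ η m₁ : ℝ) (G : Set Pl)
    (hu : 2 ≤ u) (hF : Fam u Cf K A σ s g Zf) (hS : Slo u A σ s) (hg : BB g)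
    (hg01 : ∀ x, 0 ≤ g x ∧ g x ≤ 1) (hG : ∀ x ∈ G, Loc Cf Λ g x) (hΛ : 0 < Λ) (hη : 0 < η)
    (hη1 : η ≤ 1) (hm0 : 0 < m₁)
    (h3a : 1000 ≤ m₁) (h3b : 200 * (64 * (16 * Cf * Λ / η ^ 2)) ≤ m₁)
    (h3c : (2 : ℝ) ^ (-(3 * (u : ℤ))) ≤ η)
    (h3d : (1 / 2) ^ (16 * u) / (16 * Cf * Λ / η ^ 2) * ((4 / η) ^ 2 * (Cf * (K + u + 1))) ≤
        C3 * (2 : ℝ) ^ (-(e3 * u)) * Λ ^ (-q))
    (b : ℕ) (hb1 : 1 ≤ b)
    (hns : 200 * ns u b A σ ≤ m₁)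
    (h4 : ∃ V : ℝ, 0 ≤ V ∧ (V = (4 / η) ^ 2 * (Cf * (K + u + 1)) ∨ (b ≤ 3 * u ∧ ∃ T : ℕ, 1 ≤ T ∧
        V = (4 * Ms u / η) ^ 2 * (16 * u * (Cf * mu u A σ ((2 : ℝ) ^ b * (1024 * (u : ℝ) ^ 2)) T)))) ∧
      16 * u * (CW * ns u b A σ * (64 * (16 * Cf * Λ / η ^ 2)) / m₁ ^ 3) * V ≤
        C4 * (2 : ℝ) ^ (-(e4 * u)) * Λ ^ (-q)) :
    ∑' k : ℤ, volume {x | x ∈ G ∧ m₁ ≤ ((Pe Zf u η b k x).ncard : ℝ)} ≤
      ENNReal.ofReal (C3 * (2 : ℝ) ^ (-(e3 * u)) * Λ ^ (-q) + C4 * (2 : ℝ) ^ (-(e4 * u)) * Λ ^ (-q)) *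
        ∫⁻ x, ‖g x‖ₑ ^ 2 := by
  obtain ⟨V, hV0, hV, h4'⟩ := h4
  have hu1 : 1 ≤ u := by omega
  -- the bound for the windows
  have hwin : ∀ i : ℕ, ∑' k : ℤ, ∑ j ∈ Finset.range (2 ^ u), volume (Ew Zf u η b i (1 / 4) k j) ≤
      ENNReal.ofReal V * ∫⁻ x, ‖g x‖ₑ ^ 2 := by
    intro i
    obtain ⟨hE1, hE2⟩ := hER u Cf K A σ s g Zf η b i hF hCf hA hu1 hη
    rcases hV with hV | ⟨hb3, T, hT, hV⟩
    · rw [hV]; exact hE1
    · rw [hV]; exact hE2 hb3 T hT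
  have hwin0 : ∑' k : ℤ, ∑ j ∈ Finset.range (2 ^ u), volume (Ew Zf u η b 0 (1 / 4) k j) ≤
      ENNReal.ofReal ((4 / η) ^ 2 * (Cf * (K + u + 1))) * ∫⁻ x, ‖g x‖ₑ ^ 2 :=
    (hER u Cf K A σ s g Zf η b 0 hF hCf hA hu1 hη).1
  have hns0 : 0 ≤ ns u b A σ := by
    unfold ns
    positivity
  set D : ℝ := 16 * Cf * Λ / η ^ 2 with hD
  have hD0 : 0 < D := by
    rw [hD]
    have : 0 < Cf := by linarith
    positivity
  set c1' : ℝ := (1 / 2) ^ (16 * u) / D with hc1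
  set c2' : ℝ := CW * ns u b A σ * (64 * D) / m₁ ^ 3 with hc2
  have hc1' : 0 ≤ c1' := by rw [hc1]; positivity
  have hc2' : 0 ≤ c2' := by rw [hc2]; positivity
  have hstep : ∀ k : ℤ, volume {x | x ∈ G ∧ m₁ ≤ ((Pe Zf u η b k x).ncard : ℝ)} ≤
      ENNReal.ofReal c1' * (∑ j ∈ Finset.range (2 ^ u), volume (Ew Zf u η b 0 (1 / 4) k j)) +
        ∑ i ∈ Finset.range (16 * u), ENNReal.ofReal c2' *
            ∑ j ∈ Finset.range (2 ^ u), volume (Ew Zf u η b i (1 / 4) k j) := fun k =>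
    hW u Cf K A σ s g Zf η Λ m₁ b k G hF hCf hA hS hg hg01 hG hu h3c hη1 hΛ hb1 hns h3a h3b
  calc ∑' k : ℤ, volume {x | x ∈ G ∧ m₁ ≤ ((Pe Zf u η b k x).ncard : ℝ)}
      ≤ ∑' k : ℤ, (ENNReal.ofReal c1' *
          (∑ j ∈ Finset.range (2 ^ u), volume (Ew Zf u η b 0 (1 / 4) k j)) +
        ∑ i ∈ Finset.range (16 * u), ENNReal.ofReal c2' *
            ∑ j ∈ Finset.range (2 ^ u), volume (Ew Zf u η b i (1 / 4) k j)) :=
        ENNReal.tsum_le_tsum hstep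
    _ = ENNReal.ofReal c1' * (∑' k : ℤ, ∑ j ∈ Finset.range (2 ^ u),
          volume (Ew Zf u η b 0 (1 / 4) k j)) +
        ∑ i ∈ Finset.range (16 * u), ENNReal.ofReal c2' *
            ∑' k : ℤ, ∑ j ∈ Finset.range (2 ^ u), volume (Ew Zf u η b i (1 / 4) k j) := by
        rw [ENNReal.tsum_add, ENNReal.tsum_mul_left]
        exact congrArg₂ (· + ·) rfl ((cls_tsum_finset (n := 16 * u) (fun i k => ENNReal.ofReal c2' *
            ∑ j ∈ Finset.range (2 ^ u), volume (Ew Zf u η b i (1 / 4) k j))).trans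
          (Finset.sum_congr rfl fun i _ => ENNReal.tsum_mul_left))
    _ ≤ ENNReal.ofReal c1' * (ENNReal.ofReal ((4 / η) ^ 2 * (Cf * (K + u + 1))) *
          ∫⁻ x, ‖g x‖ₑ ^ 2) +
        ∑ _i ∈ Finset.range (16 * u), ENNReal.ofReal c2' * (ENNReal.ofReal V *
          ∫⁻ x, ‖g x‖ₑ ^ 2) := by
        refine add_le_add (mul_le_mul' le_rfl hwin0) ?_
        exact Finset.sum_le_sum fun i _ => mul_le_mul' le_rfl (hwin i)
    _ = (ENNReal.ofReal (c1' * ((4 / η) ^ 2 * (Cf * (K + u + 1)))) +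
          ENNReal.ofReal (16 * u * c2' * V)) * ∫⁻ x, ‖g x‖ₑ ^ 2 := by
        rw [Finset.sum_const, Finset.card_range, nsmul_eq_mul, add_mul]
        congr 1
        · rw [← mul_assoc, ENNReal.ofReal_mul hc1']
        · rw [← mul_assoc, ← mul_assoc]
          congr 1
          rw [ENNReal.ofReal_mul (by positivity), ENNReal.ofReal_mul (by positivity)]
          congr 2
          rw [← ENNReal.ofReal_natCast]
          push_cast
          rfl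
    _ ≤ (ENNReal.ofReal (C3 * (2 : ℝ) ^ (-(e3 * u)) * Λ ^ (-q)) +
          ENNReal.ofReal (C4 * (2 : ℝ) ^ (-(e4 * u)) * Λ ^ (-q))) * ∫⁻ x, ‖g x‖ₑ ^ 2 := by
        gcongr
    _ = _ := by
        rw [ENNReal.ofReal_add (by positivity) (by positivity)]

theorem hCLS (hPS : StPS) (hMK : StMK) (hER : StER) (hWCL : StWCL) (hNBA : StNBA) (hNBB : StNBB)
    (hNBC : StNBC) (hNBD : StNBD) : StCLS := by
  intro Cf A σ q hCf hA hσ hσq hq
  obtain ⟨u1, C1, e1, hC1, he1, h1⟩ := hNBA Cf A σ q hCf hA hσ hσq hq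
  obtain ⟨u2, C2, e2, hC2, he2, h2⟩ := hNBB Cf A σ q hCf hA hσ hσq hq
  obtain ⟨u3, C3, e3, hC3, he3, h3⟩ := hNBC Cf σ q hCf hσ hσq hq
  obtain ⟨CW, hCW, hW⟩ := hWCL
  obtain ⟨u4, C4, e4, hC4, he4, h4⟩ := hNBD Cf A σ q CW hCf hA hσ hσq hq hCW
  obtain ⟨u5, h5⟩ := cls_growth ((q - σ) / 2) (200 * (1 + A)) (by linarith)
  obtain ⟨e, he, hee1, hee2, hee3, hee4⟩ : ∃ e : ℝ, 0 < e ∧ e ≤ e1 ∧ e ≤ e2 ∧ e ≤ e3 ∧ e ≤ e4 :=
    ⟨min (min e1 e2) (min e3 e4), lt_min (lt_min he1 he2) (lt_min he3 he4),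
      (min_le_left _ _).trans (min_le_left _ _), (min_le_left _ _).trans (min_le_right _ _),
      (min_le_right _ _).trans (min_le_left _ _), (min_le_right _ _).trans (min_le_right _ _)⟩
  obtain ⟨CL, hCL, hL⟩ := cls_lin e he
  refine ⟨u1 + u2 + u3 + u4 + u5 + 2, CL * (C1 + C2 + C3 + C4), e / 2, by positivity, by positivity, ?_⟩
  intro u K s g Zf Λ η m G hu hF hK hS hg hg01 hG hN
  obtain ⟨hΛ, hΛ2, hNΛ, hΛη, hη1, hm₁⟩ := hN
  have hN : Num u σ q Λ η (m / (3 * u + 2)) := ⟨hΛ, hΛ2, hNΛ, hΛη, hη1, hm₁⟩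
  set m₁ : ℝ := m / (3 * u + 2) with hm₁def
  have hu1 : 1 ≤ u := by omega
  have hu2 : 2 ≤ u := by omega
  have hu0 : (0 : ℝ) < u := by exact_mod_cast hu1
  have hη : 0 < η := lt_of_lt_of_le (by positivity) hΛη
  have hm0 : 0 < m₁ := by rw [hm₁]; positivity
  -- the constants
  have hmono : ∀ e' C' : ℝ, e ≤ e' → 0 ≤ C' → C' * (2 : ℝ) ^ (-(e' * u)) * Λ ^ (-q) ≤
      C' * (2 : ℝ) ^ (-(e * u)) * Λ ^ (-q) := by
    intro e' C' hee hC'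
    apply mul_le_mul_of_nonneg_right _ (by positivity)
    apply mul_le_mul_of_nonneg_left _ hC'
    apply Real.rpow_le_rpow_of_exponent_le (by norm_num)
    nlinarith
  have hQ : 0 ≤ (2 : ℝ) ^ (-(e * u)) * Λ ^ (-q) := by positivity
  -- Markov
  have hmk : ∀ (b T : ℕ) (B : ℝ), b ≤ 3 * u → 1 ≤ T →
      1 / m₁ * (2 * Ms u / η) ^ 2 *
        (16 * u * (Cf * mu u A σ ((2 : ℝ) ^ b * (1024 * (u : ℝ) ^ 2)) T)) ≤ B →
      ∑' k : ℤ, volume {x | x ∈ G ∧ m₁ ≤ ((Pe Zf u η b k x).ncard : ℝ)} ≤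
        ENNReal.ofReal B * ∫⁻ x, ‖g x‖ₑ ^ 2 := by
    intro b T B hb hT hB
    calc ∑' k : ℤ, volume {x | x ∈ G ∧ m₁ ≤ ((Pe Zf u η b k x).ncard : ℝ)}
        ≤ ∑' k : ℤ, volume {x | m₁ ≤ ((Pe Zf u η b k x).ncard : ℝ)} :=
          ENNReal.tsum_le_tsum fun k => measure_mono fun x hx => hx.2
      _ ≤ _ := hMK u Cf K A σ s g Zf η m₁ b T hF hCf hA hu1 hη hm0 hb hT
      _ ≤ _ := by gcongr
  -- every class
  have hcl : ∀ b ∈ Finset.range (3 * u + 2),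
      ∑' k : ℤ, volume {x | x ∈ G ∧ m₁ ≤ ((Pe Zf u η b k x).ncard : ℝ)} ≤
        ENNReal.ofReal ((C1 + C2 + C3 + C4) * (2 : ℝ) ^ (-(e * u)) * Λ ^ (-q)) *
          ∫⁻ x, ‖g x‖ₑ ^ 2 := by
    intro b hb
    rw [Finset.mem_range] at hb
    rcases Nat.eq_zero_or_pos b with hb0 | hb0
    · subst hb0
      obtain ⟨T, hT, hB⟩ := h1 u Λ η m₁ (by omega) hN
      refine hmk 0 T _ (by omega) hT (hB.trans ((hmono e1 C1 hee1 hC1.le).trans ?_))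
      rw [mul_assoc, mul_assoc]
      apply mul_le_mul_of_nonneg_right _ hQ
      linarith
    · by_cases hns : m₁ < 200 * ns u b A σ
      · have hb3 : b ≤ 3 * u := by
          by_contra hcon
          have hbe : b = 3 * u + 1 := by omega
          have h6 := cls_ns u b A σ hu1 hA hσ (by linarith) hbe
          have h7 := h5 u (by omega)
          have h8 : 200 * (1 + A) ≤ m₁ := by
            rw [hm₁, le_div_iff₀ (by positivity)]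
            calc 200 * (1 + A) * ((u : ℝ) ^ 6 * (3 * u + 2) * η)
                ≤ 200 * (1 + A) * ((u : ℝ) ^ 6 * (3 * u + 2) * 1) := by gcongr
              _ = 200 * (1 + A) * ((u : ℝ) ^ 6 * (3 * u + 2)) := by ring
              _ ≤ (2 : ℝ) ^ ((q - σ) / 2 * u) := h7
              _ ≤ _ := hNΛ
          linarith
        obtain ⟨T, hT, hB⟩ := h2 u Λ η m₁ b (by omega) hN hb0 hb3 hns
        refine hmk b T _ hb3 hT (hB.trans ((hmono e2 C2 hee2 hC2.le).trans ?_))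
        rw [mul_assoc, mul_assoc]
        apply mul_le_mul_of_nonneg_right _ hQ
        linarith
      · push Not at hns
        obtain ⟨h3a, h3b, h3c, h3d⟩ := h3 u Λ η m₁ K (by omega) hN (Nat.cast_nonneg K) hK
        have h4' := h4 u Λ η m₁ K b (by omega) hN (Nat.cast_nonneg K) hK hb0 (by omega)
        refine (cls_one hER CW hCW hW Cf A σ q C3 e3 C4 e4 hCf hA hC3 hC4 u K s g Zf Λ η m₁ G
          hu2 hF hS hg hg01 hG hΛ hη hη1 hm0 h3a h3b h3c h3d b hb0 hns h4').trans ?_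
        gcongr
        refine (add_le_add (hmono e3 C3 hee3 hC3.le) (hmono e4 C4 hee4 hC4.le)).trans ?_
        rw [mul_assoc, mul_assoc, mul_assoc, ← add_mul]
        apply mul_le_mul_of_nonneg_right _ hQ
        linarith
  -- the sum
  calc ∑' k : ℤ, volume {x | x ∈ G ∧ m ≤ ({j : ℕ | j < 2 ^ u ∧
        η ≤ |Zf (om u 0 0) k j x|}.ncard : ℝ)}
      ≤ ∑' k : ℤ, ∑ b ∈ Finset.range (3 * u + 2),
          volume {x | x ∈ G ∧ m₁ ≤ ((Pe Zf u η b k x).ncard : ℝ)} := by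
        refine ENNReal.tsum_le_tsum fun k => ?_
        refine le_trans (measure_mono ?_) (measure_biUnion_finset_le (Finset.range (3 * u + 2)) _)
        intro x hx
        obtain ⟨b, hb, hb'⟩ := cls_pigeon hPS Zf u η m k x hu1 hη hx.2
        simp only [Set.mem_iUnion]
        exact ⟨b, hb, hx.1, hb'⟩
    _ = ∑ b ∈ Finset.range (3 * u + 2),
          ∑' k : ℤ, volume {x | x ∈ G ∧ m₁ ≤ ((Pe Zf u η b k x).ncard : ℝ)} :=
        cls_tsum_finset _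
    _ ≤ ∑ _b ∈ Finset.range (3 * u + 2),
          ENNReal.ofReal ((C1 + C2 + C3 + C4) * (2 : ℝ) ^ (-(e * u)) * Λ ^ (-q)) *
          ∫⁻ x, ‖g x‖ₑ ^ 2 := Finset.sum_le_sum hcl
    _ = ENNReal.ofReal ((3 * u + 2) * ((C1 + C2 + C3 + C4) * (2 : ℝ) ^ (-(e * u)) * Λ ^ (-q))) *
          ∫⁻ x, ‖g x‖ₑ ^ 2 := by
        rw [Finset.sum_const, Finset.card_range, nsmul_eq_mul, ← mul_assoc]
        congr 1
        rw [ENNReal.ofReal_mul (p := 3 * (u : ℝ) + 2) (by positivity)]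
        congr 1
        rw [← ENNReal.ofReal_natCast]
        push_cast
        rfl
    _ ≤ _ := by
        gcongr ENNReal.ofReal ?_ * _
        have h6 := hL u
        calc (3 * (u : ℝ) + 2) * ((C1 + C2 + C3 + C4) * (2 : ℝ) ^ (-(e * u)) * Λ ^ (-q))
            = ((3 * (u : ℝ) + 2) * (2 : ℝ) ^ (-(e * u))) * ((C1 + C2 + C3 + C4) * Λ ^ (-q)) := by
              ring
          _ ≤ (CL * (2 : ℝ) ^ (-(e / 2 * u))) * ((C1 + C2 + C3 + C4) * Λ ^ (-q)) :=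
              mul_le_mul_of_nonneg_right h6 (by positivity)
          _ = _ := by ring

end Pool.Agent.Helper94.RG
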