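import Pool.Agent.Helper20.RG.St1

/-!
# Project RG, module RF1: the pointwise part of the ridge theorem
-/

set_option autoImplicit false

open MeasureTheory Set Filter Topology
open scoped ENNReal RealInnerProductSpace

namespace Pool.Agent.Helper94.RG

open Pool.Agent.Helper20.RG
open Pool.Agent.Helper68.LM (Pl)

private theorem dI_diff {a : ℤ × ℤ} {u v : ℝ} (hu : u ∈ dI a) (hv : v ∈ dI a) :
    |u - v| < (2 : ℝ) ^ a.1 := by
  unfold dI at hu hv
  rw [mem_Ico] at hu hv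
  have h : ((a.2 : ℝ) + 1) * (2 : ℝ) ^ a.1 = (a.2 : ℝ) * (2 : ℝ) ^ a.1 + (2 : ℝ) ^ a.1 := by ring
  rw [h] at hu hv
  rw [abs_lt]
  constructor <;> linarith [hu.1, hu.2, hv.1, hv.2]

private theorem dI5_of {a : ℤ × ℤ} {u v : ℝ} (hu : u ∈ dI a) (hv : |v - u| ≤ 2 * (2 : ℝ) ^ a.1) :
    v ∈ dI5 a := by
  unfold dI at hu
  unfold dI5
  rw [mem_Ico] at hu
  rw [mem_Icc]
  rw [abs_le] at hv
  constructor <;> nlinarith [hu.1, hu.2, hv.1, hv.2]

private theorem mes_Om (I : Set (ℤ × ℤ)) : MeasurableSet (Om I) := by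
  unfold Om
  exact MeasurableSet.biUnion (Set.to_countable I) (fun a _ => measurableSet_Icc)

private theorem bL_le (L : ℝ) (hL : 0 < L) (O : Set ℝ) (hO : MeasurableSet O) (t : ℝ) :
    bL L (ind O) t ≤ (1 / (2 * L)) * (volume (O ∩ Icc (t - L) (t + L))).toReal := by
  unfold bL
  apply mul_le_mul_of_nonneg_left _ (by positivity)
  have h1 : ∫ r in (-L)..L, ind O (t + r) = ∫ r in (t - L)..(t + L), ind O r := by
    have := intervalIntegral.integral_comp_add_left (a := -L) (b := L) (ind O) t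
    rw [this, ← sub_eq_add_neg]
  rw [h1, intervalIntegral.integral_of_le (by linarith)]
  unfold ind
  rw [integral_indicator hO, Measure.restrict_restrict hO, setIntegral_const, smul_eq_mul, mul_one,
    Measure.real]
  apply ENNReal.toReal_mono
  · exact ((measure_mono inter_subset_right).trans_lt (by rw [Real.volume_Icc]; exact ENNReal.ofReal_lt_top)).ne
  · exact measure_mono (inter_subset_inter_right O Ioc_subset_Icc_self)

private theorem pr_sub (s : ℝ) (y x : Pl) : pr s y - pr s x = (y 1 - x 1) - s * (y 0 - x 0) := by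
  unfold pr
  ring

private theorem Sq_sub {x z : Pl} {r L₂ : ℝ} (hx : x ∈ Sq z (L₂ / 2)) (hr : r ≤ 4 * L₂)
    (hL₂ : 0 < L₂) : Sq x r ⊆ Sq z (5 * L₂) := by
  intro y hy
  unfold Sq at hx hy ⊢
  simp only [mem_ofPred_eq] at hx hy ⊢
  obtain ⟨h1, h2⟩ := hx
  obtain ⟨h3, h4⟩ := hy
  rw [abs_le] at h1 h2 h3 h4
  constructor <;> rw [abs_le] <;> constructor <;> linarith [h1.1, h1.2, h2.1, h2.2, h3.1, h3.2, h4.1, h4.2]

section

variable {N : ℕ} {s : ℕ → ℝ} {Er : ℕ → Set Pl} {F : ℕ → Set ℝ} {I : ℕ → Set (ℤ × ℤ)} {z : Pl}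
    {p : ℤ} {L L₂ α D m nst Γ : ℝ}

private theorem sizes (h : RDat N s Er F I z p L L₂ α D m nst Γ) :
    0 < L ∧ 1000 * L ≤ L₂ ∧ 0 < L₂ ∧ 100 * (2 : ℝ) ^ p ≤ L ∧ (2 : ℝ) ^ p / α ≤ L / 100 := by
  have h2 : (0 : ℝ) < (2 : ℝ) ^ p := by positivity
  obtain ⟨a0, a1⟩ := h.al
  have hL : 0 < L := by
    by_contra hc
    push Not at hc
    have := h.sc3
    nlinarith
  have hN : (1000 : ℝ) ≤ N := h.m1.1.trans h.m1.2
  have h3 : 100 * (2 : ℝ) ^ p ≤ L := h.sc3.trans (by nlinarith)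
  have h5 : α ^ 2 * L₂ ≤ L₂ ∨ L₂ < 0 := by
    by_cases hc : 0 ≤ L₂
    · left
      exact mul_le_of_le_one_left hc (pow_le_one₀ a0.le a1)
    · right
      push Not at hc
      exact hc
  have h6 : 1000 * L ≤ N * L := mul_le_mul_of_nonneg_right hN hL.le
  have h7 : 0 < L₂ := by
    by_contra hc
    push Not at hc
    have := h.scN
    have h8 : α ^ 2 * L₂ ≤ 0 := mul_nonpos_of_nonneg_of_nonpos (by positivity) hc
    nlinarith
  have h8 : α ^ 2 * L₂ ≤ L₂ := by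
    rcases h5 with h5 | h5
    · exact h5
    · linarith
  refine ⟨hL, h6.trans (h.scN.trans h8), h7, h3, ?_⟩
  rw [div_le_iff₀ a0]
  have := h.sc3
  linarith

private theorem rid_use (hRID : StRID) (h : RDat N s Er F I z p L L₂ α D m nst Γ) {x : Pl}
    (hx : x ∈ Sq z (L₂ / 2)) {r hh : ℝ} (hr : r ≤ 4 * L₂) (h0 : 0 ≤ hh) (h1 : hh ≤ r) {j : ℕ}
    (hj : j < N) (F' : Set ℝ) (hF' : MeasurableSet F') (hsub : F' ⊆ F j)
    (hI : F' ⊆ Icc (pr (s j) x - (r - hh)) (pr (s j) x + (r - hh))) :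
    ENNReal.ofReal (2 * hh) * volume F' ≤ volume (Er j ∩ Sq x r) := by
  refine (hRID (s j) x r hh F' (h.slope j hj) h0 h1 hF' hI).trans (measure_mono ?_)
  rintro y ⟨hy, hy'⟩
  exact ⟨h.ridge j hj y (Sq_sub hx hr (sizes h).2.2.1 hy) (hsub hy'), hy⟩

/-- number of wide intervals -/
private theorem wide_le (hRID : StRID) (h : RDat N s Er F I z p L L₂ α D m nst Γ) {x : Pl}
    (hx : x ∈ Sq z (L₂ / 2)) (hD : Dens Er N x (2 * (2 : ℝ) ^ p) D) (a : ℕ → ℤ × ℤ) (W : Finset ℕ)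
    (hW : ∀ j ∈ W, j < N ∧ a j ∈ I j ∧ pr (s j) x ∈ dI (a j) ∧ p ≤ (a j).1) :
    (W.card : ℝ) ≤ m / 100 := by
  obtain ⟨hL, h1000, hL₂, h100, -⟩ := sizes h
  obtain ⟨hΓ, hΓ1, hD0⟩ := h.gam
  have h2 : (0 : ℝ) < (2 : ℝ) ^ p := by positivity
  have hΓ0 : 0 < Γ := by linarith
  have key : ∀ j ∈ W, ENNReal.ofReal (2 * (2 : ℝ) ^ p * ((2 : ℝ) ^ p / Γ)) ≤
      volume (Er j ∩ Sq x (2 * (2 : ℝ) ^ p)) := by
    intro j hj
    obtain ⟨hjN, haI, hxa, hpa⟩ := hW j hj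
    obtain ⟨i1, i2, -⟩ := h.i1 j hjN (a j) haI
    have hap : (a j).1 = p := le_antisymm i1 hpa
    have h3 := rid_use hRID h hx (r := 2 * (2 : ℝ) ^ p) (hh := (2 : ℝ) ^ p) (by linarith) h2.le (by linarith) hjN
      (F j ∩ dI (a j)) ((h.opn j hjN).measurableSet.inter measurableSet_Ico) inter_subset_left (by
        intro t ht
        have h4 := dI_diff ht.2 hxa
        rw [hap, abs_lt] at h4
        rw [mem_Icc]
        constructor <;> linarith [h4.1, h4.2])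
    refine le_trans ?_ h3
    rw [ENNReal.ofReal_mul (by positivity)]
    rw [hap] at i2
    exact mul_le_mul_right i2 _
  have hWN : W ⊆ Finset.range N := fun j hj => Finset.mem_range.2 (hW j hj).1
  have h5 : (W.card : ℝ≥0∞) * ENNReal.ofReal (2 * (2 : ℝ) ^ p * ((2 : ℝ) ^ p / Γ)) ≤
      ENNReal.ofReal (D * (2 * (2 : ℝ) ^ p) ^ 2) := by
    have h6 := Finset.sum_le_sum key
    rw [Finset.sum_const, nsmul_eq_mul] at h6
    exact h6.trans ((Finset.sum_le_sum_of_subset hWN).trans hD)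
  rw [← ENNReal.ofReal_natCast, ← ENNReal.ofReal_mul (by positivity),
    ENNReal.ofReal_le_ofReal_iff (by positivity)] at h5
  have h7 : (W.card : ℝ) ≤ 2 * Γ * D := by
    have h8 : (W.card : ℝ) * (2 * (2 : ℝ) ^ p * ((2 : ℝ) ^ p / Γ)) =
        (W.card : ℝ) / (2 * Γ * D) * (D * (2 * (2 : ℝ) ^ p) ^ 2) := by
      field_simp
    rw [h8] at h5
    have h9 : (W.card : ℝ) / (2 * Γ * D) ≤ 1 := by
      by_contra hc
      push Not at hc
      have h10 : 0 < D * (2 * (2 : ℝ) ^ p) ^ 2 := by positivity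
      nlinarith
    rwa [div_le_one (by positivity)] at h9
  have h8 : 2 * Γ * D = m / 100 := by
    rw [hΓ]
    field_simp
    ring
  linarith

/-- the vertical average is small -/
private theorem Gv_le (hRID : StRID) (h : RDat N s Er F I z p L L₂ α D m nst Γ) {x : Pl}
    (hx : x ∈ Sq z (L₂ / 2)) (hD : Dens Er N x (5 * L / 2) D) {y : Pl} (hy0 : |y 0 - x 0| ≤ L / 100)
    (hy1 : |y 1 - x 1| ≤ L / 50) : Gv N s I L y ≤ 6.01 / 200 * m := by
  obtain ⟨hL, h1000, hL₂, h100, -⟩ := sizes h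
  obtain ⟨hΓ, hΓ1, hD0⟩ := h.gam
  have h2 : (0 : ℝ) < (2 : ℝ) ^ p := by positivity
  have hΓ0 : 0 < Γ := by linarith
  set V : ℕ → ℝ≥0∞ := fun j => volume (F j ∩ Icc (pr (s j) x - 6 / 5 * L) (pr (s j) x + 6 / 5 * L)) with hV
  have hVf : ∀ j, V j ≠ ∞ := fun j =>
    ((measure_mono inter_subset_right).trans_lt (by rw [Real.volume_Icc]; exact ENNReal.ofReal_lt_top)).ne
  have key1 : ∀ j ∈ Finset.range N, ENNReal.ofReal (2 * (13 / 10 * L)) * V j ≤ volume (Er j ∩ Sq x (5 * L / 2)) := by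
    intro j hj
    have hjN := Finset.mem_range.1 hj
    refine rid_use hRID h hx (r := 5 * L / 2) (hh := 13 / 10 * L) (by linarith) (by linarith) (by linarith) hjN
      _ ((h.opn j hjN).measurableSet.inter measurableSet_Icc) inter_subset_left ?_
    intro t ht
    have h4 := ht.2
    rw [mem_Icc] at h4 ⊢
    constructor <;> linarith [h4.1, h4.2]
  have h5 : ∑ j ∈ Finset.range N, 2 * (13 / 10 * L) * (V j).toReal ≤ D * (5 * L / 2) ^ 2 := by
    have h6 := (Finset.sum_le_sum key1).trans hD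
    have h7 : ∀ j, ENNReal.ofReal (2 * (13 / 10 * L)) * V j = ENNReal.ofReal (2 * (13 / 10 * L) * (V j).toReal) := by
      intro j
      rw [ENNReal.ofReal_mul (p := 2 * (13 / 10 * L)) (by positivity), ENNReal.ofReal_toReal (hVf j)]
    simp only [h7] at h6
    rw [← ENNReal.ofReal_sum_of_nonneg (fun j _ => by positivity),
      ENNReal.ofReal_le_ofReal_iff (by positivity)] at h6
    exact h6
  have key2 : ∀ j ∈ Finset.range N, bL L (ind (Om (I j))) (pr (s j) y) ≤ 1 / (2 * L) * (5 * Γ * (V j).toReal) := by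
    intro j hj
    have hjN := Finset.mem_range.1 hj
    refine (bL_le L hL _ (mes_Om (I j)) _).trans (mul_le_mul_of_nonneg_left ?_ (by positivity))
    have h6 := h.i4 j hjN (pr (s j) y - L) (pr (s j) y + L) (by linarith)
    have h7 : F j ∩ Icc (pr (s j) y - L - 3 * (2 : ℝ) ^ p) (pr (s j) y + L + 3 * (2 : ℝ) ^ p) ⊆
        F j ∩ Icc (pr (s j) x - 6 / 5 * L) (pr (s j) x + 6 / 5 * L) := by
      apply inter_subset_inter_right
      have h8 := pr_sub (s j) y x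
      have h9 : |s j * (y 0 - x 0)| ≤ L / 100 := by
        rw [abs_mul]
        exact (mul_le_of_le_one_left (abs_nonneg _) (h.slope j hjN)).trans hy0
      rw [abs_le] at h9 hy1
      apply Icc_subset_Icc <;> linarith [h9.1, h9.2, hy1.1, hy1.2]
    have h8 := h6.trans (mul_le_mul_right (measure_mono h7) _)
    have h9 := ENNReal.toReal_mono (ENNReal.mul_ne_top ENNReal.ofReal_ne_top (hVf j)) h8
    rw [ENNReal.toReal_mul, ENNReal.toReal_ofReal (by positivity)] at h9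
    exact h9
  have h6 : Gv N s I L y ≤ ∑ j ∈ Finset.range N, 1 / (2 * L) * (5 * Γ * (V j).toReal) :=
    Finset.sum_le_sum key2
  refine h6.trans ?_
  have h7 : ∑ j ∈ Finset.range N, 1 / (2 * L) * (5 * Γ * (V j).toReal) =
      (5 * Γ / (2 * L)) / (2 * (13 / 10 * L)) * ∑ j ∈ Finset.range N, 2 * (13 / 10 * L) * (V j).toReal := by
    rw [Finset.mul_sum]
    apply Finset.sum_congr rfl
    intro j _
    field_simp
  rw [h7]
  refine (mul_le_mul_of_nonneg_left h5 (by positivity)).trans ?_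
  have h8 : (5 * Γ / (2 * L)) / (2 * (13 / 10 * L)) * (D * (5 * L / 2) ^ 2) = 625 / 104 * (Γ * D) := by
    field_simp
    ring
  have h9 : Γ * D = m / 200 := by
    rw [hΓ]
    field_simp
  rw [h8, h9]
  have h10 : (0 : ℝ) ≤ m := by linarith [h.m1.1]
  linarith

private theorem incl (hRID : StRID) (h : RDat N s Er F I z p L L₂ α D m nst Γ) {x : Pl}
    (hx : x ∈ Sq z (L₂ / 2)) (hD : Dens Er N x (5 * L / 2) D) (a : ℕ → ℤ × ℤ) (S' : Finset ℕ)
    (hS' : ∀ j ∈ S', j < N ∧ a j ∈ I j ∧ pr (s j) x ∈ dI (a j) ∧ (a j).1 < p) {j₁ j₂ : ℕ}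
    (h₁ : j₁ ∈ S') (h₂ : j₂ ∈ S') (hα : α < |s j₁ - s j₂|) (hM : 99 / 100 * m ≤ (S'.card : ℝ))
    (hc : ((S'.card : ℝ) - 2) / 6 ≤
      ({c : ℕ | c ∈ S' ∧ Dom s (fun j => (2 : ℝ) ^ (a j).1) j₁ j₂ c}.ncard : ℝ)) :
    {y : Pl | pr (s j₁) y ∈ dI (a j₁) ∧ pr (s j₂) y ∈ dI (a j₂)} ⊆ Hs N s I z L L₂ := by
  classical
  rintro y ⟨hy1, hy2⟩
  obtain ⟨hL, h1000, hL₂, h100, hpα⟩ := sizes h
  obtain ⟨a0, a1⟩ := h.al
  have h2 : (0 : ℝ) < (2 : ℝ) ^ p := by positivity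
  have hm1 : 1000 ≤ m := h.m1.1
  obtain ⟨n1, -, x1, p1⟩ := hS' j₁ h₁
  obtain ⟨n2, -, x2, p2⟩ := hS' j₂ h₂
  have d1 := dI_diff hy1 x1
  have d2 := dI_diff hy2 x2
  have half : ∀ i : ℤ, i < p → (2 : ℝ) ^ i ≤ (2 : ℝ) ^ p / 2 := by
    intro i hi
    have h3 : (2 : ℝ) ^ i ≤ (2 : ℝ) ^ (p - 1) := zpow_le_zpow_right₀ (by norm_num) (by omega)
    rw [zpow_sub₀ (by norm_num), zpow_one] at h3
    exact h3
  have w1 := half _ p1
  have w2 := half _ p2
  rw [pr_sub] at d1 d2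
  set v0 : ℝ := y 0 - x 0 with hv0
  set v1 : ℝ := y 1 - x 1 with hv1
  have e0 : |v0| ≤ L / 100 := by
    have h3 : |s j₁ - s j₂| * |v0| ≤ (2 : ℝ) ^ p := by
      rw [← abs_mul]
      have h4 : (s j₁ - s j₂) * v0 = (v1 - s j₂ * v0) - (v1 - s j₁ * v0) := by ring
      rw [h4]
      refine (abs_sub _ _).trans ?_
      linarith
    have h4 : α * |v0| ≤ (2 : ℝ) ^ p := (mul_le_mul_of_nonneg_right hα.le (abs_nonneg _)).trans h3
    have h5 : |v0| ≤ (2 : ℝ) ^ p / α := by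
      rw [le_div_iff₀ a0]
      linarith
    exact h5.trans hpα
  have e1 : |v1| ≤ L / 50 := by
    have h3 : v1 = (v1 - s j₁ * v0) + s j₁ * v0 := by ring
    have h4 : |s j₁ * v0| ≤ L / 100 := by
      rw [abs_mul]
      exact (mul_le_of_le_one_left (abs_nonneg _) (h.slope j₁ n1)).trans e0
    rw [h3]
    refine (abs_add_le _ _).trans ?_
    linarith
  have hGv := Gv_le hRID h hx hD e0 e1
  have hGs : ((S'.card : ℝ) - 2) / 6 ≤ Gs N s I y := by
    refine hc.trans ?_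
    have h3 : {c : ℕ | c ∈ S' ∧ Dom s (fun j => (2 : ℝ) ^ (a j).1) j₁ j₂ c} =
        ((S'.filter (fun c => Dom s (fun j => (2 : ℝ) ^ (a j).1) j₁ j₂ c) : Finset ℕ) : Set ℕ) := by
      ext c
      simp
    rw [h3, Set.ncard_coe_finset]
    unfold Gs
    have hsub : S'.filter (fun c => Dom s (fun j => (2 : ℝ) ^ (a j).1) j₁ j₂ c) ⊆ Finset.range N := by
      intro c hc'
      exact Finset.mem_range.2 (hS' c (Finset.mem_filter.1 hc').1).1
    have hnn : ∀ (O : Set ℝ) (t : ℝ), 0 ≤ ind O t := by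
      intro O t
      unfold ind
      exact Set.indicator_nonneg (fun _ _ => zero_le_one) _
    refine le_trans ?_ (Finset.sum_le_sum_of_subset_of_nonneg hsub (fun j _ _ => hnn _ _))
    have h4 : ∀ c ∈ S'.filter (fun c => Dom s (fun j => (2 : ℝ) ^ (a j).1) j₁ j₂ c),
        ind (Om (I c)) (pr (s c) y) = 1 := by
      intro c hc'
      obtain ⟨hcS, μ, ν, hμ, hν, r1, r2⟩ := Finset.mem_filter.1 hc'
      obtain ⟨nc, ic, xc, pc⟩ := hS' c hcS
      unfold ind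
      apply Set.indicator_of_mem
      unfold Om
      rw [mem_iUnion₂]
      refine ⟨a c, ic, dI5_of xc ?_⟩
      rw [pr_sub, ← hv0, ← hv1]
      have hwa : (0 : ℝ) < (2 : ℝ) ^ (a j₁).1 := by positivity
      have hwb : (0 : ℝ) < (2 : ℝ) ^ (a j₂).1 := by positivity
      have hwc : (0 : ℝ) < (2 : ℝ) ^ (a c).1 := by positivity
      have h5 : (v1 - s c * v0) / (2 : ℝ) ^ (a c).1 =
          μ * ((v1 - s j₁ * v0) / (2 : ℝ) ^ (a j₁).1) + ν * ((v1 - s j₂ * v0) / (2 : ℝ) ^ (a j₂).1) := by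
        have h6 : (v1 - s c * v0) / (2 : ℝ) ^ (a c).1 =
            v1 * (1 / (2 : ℝ) ^ (a c).1) - (s c / (2 : ℝ) ^ (a c).1) * v0 := by ring
        rw [h6, r1, r2]
        ring
      have h6 : |(v1 - s j₁ * v0) / (2 : ℝ) ^ (a j₁).1| ≤ 1 := by
        rw [abs_div, abs_of_pos hwa, div_le_one hwa]
        exact d1.le
      have h7 : |(v1 - s j₂ * v0) / (2 : ℝ) ^ (a j₂).1| ≤ 1 := by
        rw [abs_div, abs_of_pos hwb, div_le_one hwb]
        exact d2.le
      have h8 : |(v1 - s c * v0) / (2 : ℝ) ^ (a c).1| ≤ 2 := by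
        rw [h5]
        refine (abs_add_le _ _).trans ?_
        rw [abs_mul, abs_mul]
        have h9 := mul_le_one₀ hμ (abs_nonneg _) h6
        have h10 := mul_le_one₀ hν (abs_nonneg _) h7
        linarith
      rw [abs_div, abs_of_pos hwc, div_le_iff₀ hwc] at h8
      exact h8
    rw [Finset.sum_congr rfl h4, Finset.sum_const, nsmul_eq_mul, mul_one]
  have hG0 : (99 / 100 * m - 2) / 6 ≤ Gs N s I y := by linarith
  refine ⟨?_, by linarith, by linarith⟩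
  unfold Sq at hx ⊢
  simp only [mem_ofPred_eq] at hx ⊢
  obtain ⟨q1, q2⟩ := hx
  rw [abs_le] at q1 q2 e0 e1
  rw [hv0] at e0
  rw [hv1] at e1
  constructor <;> rw [abs_le] <;> constructor <;> linarith [q1.1, q1.2, q2.1, q2.2, e0.1, e0.2, e1.1, e1.2]

end

theorem hRF1 (_hPT : StPT) (hRID : StRID) (hRB : StRB) : StRF1 := by
  classical
  intro N s Er F I z p L L₂ α D m nst Γ h x hx hm hD1 hD2
  have hm1 : 1000 ≤ m := h.m1.1
  have hex : ∀ j, j < N → pr (s j) x ∈ F j → ∃ a ∈ I j, pr (s j) x ∈ dI a := by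
    intro j hj hx'
    have h3 := h.i3 j hj hx'
    rw [mem_iUnion₂] at h3
    obtain ⟨b, hb, hb'⟩ := h3
    exact ⟨b, hb, hb'⟩
  choose! a haI hxa using hex
  set S : Finset ℕ := (Finset.range N).filter (fun j => pr (s j) x ∈ F j) with hS
  have hSm : m ≤ (S.card : ℝ) := by
    have h3 : {j : ℕ | j < N ∧ pr (s j) x ∈ F j} = (S : Set ℕ) := by
      ext j
      simp [hS]
    rwa [h3, Set.ncard_coe_finset] at hm
  have hSmem : ∀ j ∈ S, j < N ∧ pr (s j) x ∈ F j := by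
    intro j hj
    have h3 := Finset.mem_filter.1 hj
    exact ⟨Finset.mem_range.1 h3.1, h3.2⟩
  set S' : Finset ℕ := S.filter (fun j => ¬ p ≤ (a j).1) with hS'
  have hW := wide_le hRID h hx hD1 a (S.filter (fun j => p ≤ (a j).1)) (by
    intro j hj
    obtain ⟨hjS, hjp⟩ := Finset.mem_filter.1 hj
    obtain ⟨h3, h4⟩ := hSmem j hjS
    exact ⟨h3, haI j h3 h4, hxa j h3 h4, hjp⟩)
  have hcard : (S.filter (fun j => p ≤ (a j).1)).card + S'.card = S.card :=
    Finset.card_filter_add_card_filter_not _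
  have hcard' : ((S.filter (fun j => p ≤ (a j).1)).card : ℝ) + S'.card = S.card := by
    exact_mod_cast hcard
  have hM : 99 / 100 * m ≤ (S'.card : ℝ) := by linarith
  have hS'mem : ∀ j ∈ S', j < N ∧ a j ∈ I j ∧ pr (s j) x ∈ dI (a j) ∧ (a j).1 < p := by
    intro j hj
    obtain ⟨hjS, hjp⟩ := Finset.mem_filter.1 hj
    obtain ⟨h3, h4⟩ := hSmem j hjS
    exact ⟨h3, haI j h3 h4, hxa j h3 h4, not_le.1 hjp⟩
  set w : ℕ → ℝ := fun j => (2 : ℝ) ^ (a j).1 with hw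
  have hS'3 : 3 ≤ S'.card := by
    have h3 : (3 : ℝ) ≤ S'.card := by linarith
    exact_mod_cast h3
  have hB := hRB s w S' (fun j _ => by simp only [hw]; positivity) hS'3
  set T : Set (ℕ × ℕ) := {q : ℕ × ℕ | q.1 ∈ S' ∧ q.2 ∈ S' ∧ q.1 ≠ q.2 ∧
      ((S'.card : ℝ) - 2) / 6 ≤ ({c : ℕ | c ∈ S' ∧ Dom s w q.1 q.2 c}.ncard : ℝ)} with hT
  set Q : Set (ℕ × ℕ) := {q : ℕ × ℕ | q.1 < N ∧ q.2 < N ∧ α < |s q.1 - s q.2| ∧
        ∃ a ∈ I q.1, ∃ b ∈ I q.2, pr (s q.1) x ∈ F q.1 ∩ dI a ∧ pr (s q.2) x ∈ F q.2 ∩ dI b ∧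
          a.1 < p ∧ b.1 < p ∧
          {y : Pl | pr (s q.1) y ∈ dI a ∧ pr (s q.2) y ∈ dI b} ⊆ Hs N s I z L L₂} with hQ
  set Bf : Finset (ℕ × ℕ) := S'.biUnion (fun i => (S'.filter (fun j => |s i - s j| ≤ α)).image (fun j => (i, j))) with hBf
  have hsub : T ⊆ Q ∪ (Bf : Set (ℕ × ℕ)) := by
    rintro ⟨i, j⟩ ⟨hi, hj, -, hdom⟩
    by_cases hc : |s i - s j| ≤ α
    · right
      rw [Finset.mem_coe, hBf, Finset.mem_biUnion]
      exact ⟨i, hi, Finset.mem_image.2 ⟨j, Finset.mem_filter.2 ⟨hj, hc⟩, rfl⟩⟩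
    · left
      push Not at hc
      obtain ⟨n1, i1, x1, p1⟩ := hS'mem i hi
      obtain ⟨n2, i2, x2, p2⟩ := hS'mem j hj
      have f1 := (hSmem i (Finset.mem_filter.1 hi).1).2
      have f2 := (hSmem j (Finset.mem_filter.1 hj).1).2
      exact ⟨n1, n2, hc, a i, i1, a j, i2, ⟨f1, x1⟩, ⟨f2, x2⟩, p1, p2,
        incl hRID h hx hD2 a S' hS'mem hi hj hc hM hdom⟩
  have hQfin : Q.Finite := by
    apply Set.Finite.subset ((Finset.range N ×ˢ Finset.range N : Finset (ℕ × ℕ)).finite_toSet)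
    rintro ⟨i, j⟩ ⟨hi, hj, -⟩
    simp only [Finset.coe_product, Finset.coe_range, mem_prod, mem_Iio]
    exact ⟨hi, hj⟩
  have hBc : (Bf.card : ℝ) ≤ S'.card * nst := by
    have h3 : (Bf.card : ℝ) ≤ ∑ i ∈ S', ((S'.filter (fun j => |s i - s j| ≤ α)).card : ℝ) := by
      have h4 : Bf.card ≤ ∑ i ∈ S', (S'.filter (fun j => |s i - s j| ≤ α)).card :=
        Finset.card_biUnion_le.trans (Finset.sum_le_sum (fun i _ => Finset.card_image_le))
      exact_mod_cast h4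
    refine h3.trans ?_
    have h4 : ∀ i ∈ S', ((S'.filter (fun j => |s i - s j| ≤ α)).card : ℝ) ≤ nst := by
      intro i hi
      refine le_trans ?_ (h.exo i (hS'mem i hi).1)
      rw [← Set.ncard_coe_finset]
      have h5 : ((S'.filter (fun j => |s i - s j| ≤ α) : Finset ℕ) : Set ℕ) ⊆
          {j' : ℕ | j' < N ∧ |s i - s j'| ≤ α} := by
        intro j hj
        have h6 := Finset.mem_filter.1 (Finset.mem_coe.1 hj)
        exact ⟨(hS'mem j h6.1).1, h6.2⟩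
      have h6 : ({j' : ℕ | j' < N ∧ |s i - s j'| ≤ α}).Finite :=
        (Set.finite_Iio N).subset (fun j hj => hj.1)
      exact_mod_cast Set.ncard_le_ncard h5 h6
    refine (Finset.sum_le_sum h4).trans ?_
    rw [Finset.sum_const, nsmul_eq_mul]
  have hfin : (T.ncard : ℝ) ≤ Q.ncard + Bf.card := by
    have h3 := (Set.ncard_le_ncard hsub (hQfin.union (Finset.finite_toSet Bf))).trans (Set.ncard_union_le _ _)
    rw [Set.ncard_coe_finset] at h3
    exact_mod_cast h3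
  have hnst := h.mn
  set M : ℝ := (S'.card : ℝ) with hMdef
  have h5 : M * (M - 1) / 5 - M * nst ≤ Q.ncard := by linarith
  refine le_trans ?_ h5
  have h6 : 193 / 1000 * m - 1 / 5 ≤ (M - 1) / 5 - nst := by linarith
  have h7 : (99 / 100 * m) * (193 / 1000 * m - 1 / 5) ≤ M * ((M - 1) / 5 - nst) :=
    mul_le_mul hM h6 (by linarith) (by linarith)
  nlinarith

end Pool.Agent.Helper94.RG
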